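import Pool.Agent.Helper1.KA.Stmts2
import Pool.Agent.Helper1.KA.GeneralB
import Pool.Agent.Helper96.KL.Dim

set_option autoImplicit false
set_option linter.unusedSectionVars false

/-!
Project KA (MP_0b9e0b_ag), KA-14d and KA-7b: the dimension of a good point is at most the number of
its affine coordinates; if it is equal to this number then the coordinates `x i` are algebraically
independent and `SS 0 z` does not depend on the point.
-/

namespace Pool.Agent.Helper1.KA

open Pool.Agent.Helper16
open Pool.Agent.Helper1.KL (Var VarF Key key fld spec cyc relations rat CH coef Idx)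
open Pool.Agent.Helper1.KL (aff xc yc tr ec red xpt perp Prp ratf Vert Con At0 Quo cls IT RT)
open Pool.Agent.Helper1.KL (key_eq_iff getD_map key_map mem_fld getD_mem_fld fld_eq_range fld_map
  trdeg_fld_map restr restr_map key_restr fld_restr trdeg_fld_restr exists_hom_of_key
  trdeg_eq_of_key charP_ratFunc charP_alg cast_pow_p)
open Pool.Agent.Helper1.KL (trdeg_adjoin_le_card indep_of_trdeg_adjoin subI)

variable {k : Type} [Field k] {p a : ℕ} [Fact p.Prime] {n : ℕ} {c : Fin n → k} {r : ℕ}

section

variable {N : Type} [Field N] [Algebra (RatFunc k) N] {I : Finset (Fin n)}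
  {z : Fin n ⊕ Fin n → Option N}

theorem Good.fld_xpt (h : Good p a c r I z) :
    fld (RatFunc k) (xpt z) =
      IntermediateField.adjoin (RatFunc k) (Set.range fun i : I => xc z i) := by
  rw [fld_eq_range]
  refine le_antisymm ?_ ?_
  · rw [IntermediateField.adjoin_le_iff]
    rintro _ ⟨i, rfl⟩
    by_cases hi : i ∈ I
    · exact IntermediateField.subset_adjoin _ _ ⟨⟨i, hi⟩, rfl⟩
    · have h1 : xc z i = 0 := (h.of_notMem hi).2.2.1
      change xc z i ∈ _
      rw [h1]
      exact zero_mem _
  · rw [IntermediateField.adjoin_le_iff]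
    rintro _ ⟨i, rfl⟩
    exact IntermediateField.subset_adjoin _ _ ⟨i, rfl⟩

theorem Good.trdeg_adjoin (h : Good p a c r I z) :
    Algebra.trdeg (RatFunc k) (IntermediateField.adjoin (RatFunc k)
      (Set.range fun i : I => xc z i)) = r := by
  rw [← h.fld_xpt, trdeg_xpt h.mem]
  exact h.dim

theorem Good.dim_le (h : Good p a c r I z) : r ≤ I.card := by
  have h1 := trdeg_adjoin_le_card (F := RatFunc k) fun i : I => xc z i
  rw [h.trdeg_adjoin, Fintype.card_coe] at h1
  exact_mod_cast h1

theorem Good.indep (h : Good p a c r I z) (hr : r = I.card) :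
    AlgebraicIndependent (RatFunc k) fun i : I => xc z i := by
  refine indep_of_trdeg_adjoin _ ?_
  rw [h.trdeg_adjoin, Fintype.card_coe, hr]

theorem Good.aeval_red (h : Good p a c r I z)
    (P : MvPolynomial (Fin n ⊕ Unit) (RatFunc k)) :
    MvPolynomial.aeval (fun j => (red (0 : Fin n → ZMod p) z j).getD 0) P =
      MvPolynomial.aeval (fun i : I => xc z i) (subI I P) := by
  have h1 : (MvPolynomial.aeval (fun j => (red (0 : Fin n → ZMod p) z j).getD 0) :
      MvPolynomial (Fin n ⊕ Unit) (RatFunc k) →ₐ[RatFunc k] N) =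
      (MvPolynomial.aeval (fun i : I => xc z i)).comp (subI I) := by
    refine MvPolynomial.algHom_ext fun j => ?_
    rw [MvPolynomial.aeval_X, AlgHom.comp_apply]
    unfold subI
    rw [MvPolynomial.aeval_X]
    rcases j with i | u
    · change xc z i = _
      by_cases hi : i ∈ I
      · simp only [dif_pos hi, MvPolynomial.aeval_X]
      · simp only [dif_neg hi, map_zero]
        exact (h.of_notMem hi).2.2.1
    · change ec (0 : Fin n → ZMod p) z = _
      simp [ec]
  rw [h1, AlgHom.comp_apply]

theorem Good.red_ne_none (h : Good p a c r I z) (j : Fin n ⊕ Unit) :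
    red (0 : Fin n → ZMod p) z j = none ↔ ∃ i, j = Sum.inl i ∧ i ∉ I := by
  rcases j with i | u
  · change z (Sum.inl i) = none ↔ _
    constructor
    · intro h0
      refine ⟨i, rfl, fun hi => ?_⟩
      rw [(h.of_mem hi).1] at h0
      cases h0
    · rintro ⟨i', h1, h2⟩
      cases h1
      exact h.inf i h2
  · change some (ec (0 : Fin n → ZMod p) z) = none ↔ _
    simp

end

/-- KA-14d. -/
theorem modDim : ModDim k p a c r :=
  fun _ _ _ _ _ h => h.dim_le

/-- KA-7b. -/
theorem mod0'_of_modS [CharP k p] (hS : ModS k p a c r) : Mod0' k p a c r := by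
  intro N N' _ _ _ _ I z z' hr h h'
  refine (hS N N' z z' 0 h.mem h'.mem ?_).1
  rw [key_eq_iff]
  refine ⟨fun j => ?_, fun P => ?_⟩
  · rw [h.red_ne_none, h'.red_ne_none]
  · rw [h.aeval_red, h'.aeval_red]
    have e1 := h.indep hr
    have e2 := h'.indep hr
    constructor
    · intro h0
      rw [algebraicIndependent_iff.1 e1 _ h0, map_zero]
    · intro h0
      rw [algebraicIndependent_iff.1 e2 _ h0, map_zero]

end Pool.Agent.Helper1.KA
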